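import Mathlib
import Pool.Agent.H95.QC.Chain
import Pool.Agent.H9.QC.K12

/-!
# Quasi-critical polymer: modules E4 and E5
-/

open MeasureTheory ProbabilityTheory Filter Topology
open scoped ENNReal NNReal BigOperators

set_option linter.unusedSectionVars false

namespace Pool.Agent.H42.QC

open Pool.Agent.H95 Pool.Agent.H95.QC

section E5

variable {G : Type} [Fintype G] [DecidableEq G] [AddCommGroup G]
variable (st : Fin 4 → G) (a : G → ℝ)

lemma iter_sum {ι : Type*} (T : ℕ) (s : Finset ι) (c : ι → ℝ) (F : ι → G → ℝ) :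
    (step st a)^[T] (∑ i ∈ s, c i • F i) = ∑ i ∈ s, c i • (step st a)^[T] (F i) := by
  classical
  induction s using Finset.induction_on with
  | empty =>
    simp only [Finset.sum_empty]
    have := iterate_step_smul st a T 0 (0 : G → ℝ)
    simpa using this
  | insert i s hi ih =>
    rw [Finset.sum_insert hi, Finset.sum_insert hi, iterate_step_add, iterate_step_smul, ih]

lemma iter_eq_sum (T : ℕ) (F : G → ℝ) (x : G) :
    (step st a)^[T] F x = ∑ z, F z * (step st a)^[T] (dl z) x := by
  conv_lhs => rw [eq_sum_dl F]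
  rw [iter_sum]
  simp [Finset.sum_apply]

lemma isSOS_sq_linear (L : G → ℝ) : IsSOS (fun F : G → ℝ => (∑ x, L x * F x) ^ 2) :=
  ⟨1, fun _ => L, fun F => by simp⟩

lemma memLp_lin {ν : Measure ℝ≥0} {s : ℝ} (h : Wt ν s) (T : ℕ) (F L : G → ℝ) :
    MemLp (fun w => ∑ x, L x * evo st a T w F x) 2 (env G ν) := by
  have hprob := h.prob
  have h1 := (targetS1 G st a ν s h _ (isSOS_sq_linear L) T F).1
  have hm : Measurable (fun w : ℕ → G → ℝ≥0 => ∑ x, L x * evo st a T w F x) :=
    Finset.measurable_sum _ (fun x _ =>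
      ((measurable_pi_apply x).comp (measurable_evo_left st a T F)).const_mul (L x))
  rw [memLp_two_iff_integrable_sq hm.aestronglyMeasurable]
  exact h1

lemma memLp_evo {ν : Measure ℝ≥0} {s : ℝ} (h : Wt ν s) (T : ℕ) (F : G → ℝ) (x : G) :
    MemLp (fun w => evo st a T w F x) 2 (env G ν) := by
  have := memLp_lin st a h T F (dl x)
  refine this.congr_norm ((measurable_pi_apply x).comp
    (measurable_evo_left st a T F)).aestronglyMeasurable ?_
  refine ae_of_all _ (fun w => ?_)
  congr 1
  simp [dl, Pi.single_apply]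

/-- the weight of one site -/
lemma memLp_w0 {ν : Measure ℝ≥0} {s : ℝ} (h : Wt ν s) (z : G) :
    MemLp (fun w : ℕ → G → ℝ≥0 => (w 0 z : ℝ)) 2 (env G ν) ∧
      ∫ w : ℕ → G → ℝ≥0, (w 0 z : ℝ) ∂(env G ν) = 1 := by
  have hprob := h.prob
  have hmp1 : MeasurePreserving (fun w : ℕ → G → ℝ≥0 => w 0) (env G ν)
      (Measure.pi (fun _ : G => ν)) :=
    measurePreserving_eval_infinitePi (fun _ : ℕ => Measure.pi (fun _ : G => ν)) 0
  have hmp2 : MeasurePreserving (fun y : G → ℝ≥0 => y z) (Measure.pi (fun _ : G => ν)) ν :=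
    measurePreserving_eval (fun _ : G => ν) z
  have hmp := hmp2.comp hmp1
  refine ⟨h.memLp.comp_measurePreserving hmp, ?_⟩
  rw [← h.mean]
  have := integral_map (μ := env G ν) (φ := fun w : ℕ → G → ℝ≥0 => w 0 z)
    hmp.measurable.aemeasurable (f := fun z : ℝ≥0 => (z : ℝ))
    (measurable_coe_nnreal_real.aestronglyMeasurable)
  rw [show (fun w : ℕ → G → ℝ≥0 => w 0 z) = (fun y : G → ℝ≥0 => y z) ∘
    (fun w : ℕ → G → ℝ≥0 => w 0) from rfl, hmp.map_eq] at this
  exact this.symm

lemma mean_evo {ν : Measure ℝ≥0} {s : ℝ} (h : Wt ν s) (T : ℕ) (F : G → ℝ) (x : G) :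
    ∫ w, evo st a T w F x ∂(env G ν) = (step st a)^[T] F x := by
  have hprob := h.prob
  induction T generalizing F with
  | zero => simp [evo]
  | succ T ih =>
    have e1 : ∀ w : ℕ → G → ℝ≥0, evo st a (T + 1) w F x =
        ∑ z, step st a F z * ((w 0 z : ℝ) * evo st a T (shift 1 w) (dl z) x) := by
      intro w
      simp only [evo]
      rw [evo_eq_sum]
      refine Finset.sum_congr rfl (fun z _ => ?_)
      ring
    simp_rw [e1]
    have hmp := measurePreserving_shift (Measure.pi (fun _ : G => ν)) 1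
    have hint : ∀ z : G, Integrable (fun w : ℕ → G → ℝ≥0 =>
        (w 0 z : ℝ) * evo st a T (shift 1 w) (dl z) x) (env G ν) := fun z =>
      (memLp_w0 h z).1.integrable_mul (q := 2) (p := 2)
        ((memLp_evo st a h T (dl z) x).comp_measurePreserving hmp)
    rw [integral_finsetSum _ (fun z _ => (hint z).const_mul _)]
    rw [Function.iterate_succ_apply, iter_eq_sum]
    refine Finset.sum_congr rfl (fun z _ => ?_)
    rw [integral_const_mul]
    congr 1
    have e2 := integral_mul_shift (Measure.pi (fun _ : G => ν)) (t := 1)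
      (f := fun w : ℕ → G → ℝ≥0 => (w 0 z : ℝ)) (g := fun w => evo st a T w (dl z) x)
      (fun w w' hw => by simp only [hw 0 (by norm_num)])
      (memLp_w0 h z).1.1 (memLp_evo st a h T (dl z) x).1
    have e3 : ∫ w : ℕ → G → ℝ≥0, (w 0 z : ℝ) ∂(iid (Measure.pi (fun _ : G => ν))) = 1 :=
      (memLp_w0 h z).2
    have e4 : ∫ w, evo st a T w (dl z) x ∂(iid (Measure.pi (fun _ : G => ν))) =
      (step st a)^[T] (dl z) x := ih (dl z)
    rw [e3, e4, one_mul] at e2
    exact e2

theorem targetE5 : TargetE5 := by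
  intro G _ _ _ st a ν s h T F
  have hprob := h.prob
  refine ⟨fun x => ⟨(memLp_evo st a h T F x).integrable (by norm_num), mean_evo st a h T F x⟩, ?_⟩
  intro Q hQ
  have hS := targetS1 G st a ν s h Q hQ T F
  obtain ⟨k, L, hL⟩ := hQ
  let m : Fin k → ℝ := fun i => ∑ x, L i x * (step st a)^[T] F x
  let ℓ : Fin k → (ℕ → G → ℝ≥0) → ℝ := fun i w => ∑ x, L i x * evo st a T w F x
  have hℓ : ∀ i, MemLp (ℓ i) 2 (env G ν) := fun i => memLp_lin st a h T F (L i)
  have hmean : ∀ i, ∫ w, ℓ i w ∂(env G ν) = m i := by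
    intro i
    simp only [ℓ, m]
    rw [integral_finsetSum _ (fun x _ =>
      ((memLp_evo st a h T F x).integrable (by norm_num)).const_mul _)]
    refine Finset.sum_congr rfl (fun x _ => ?_)
    rw [integral_const_mul, mean_evo st a h]
  have e1 : ∀ w, Q (evo st a T w F - (step st a)^[T] F) = ∑ i, (ℓ i w - m i) ^ 2 := by
    intro w
    rw [hL]
    refine Finset.sum_congr rfl (fun i _ => ?_)
    congr 1
    simp only [ℓ, m, Pi.sub_apply, mul_sub, Finset.sum_sub_distrib]
  have e2 : ∀ w, Q (evo st a T w F) = ∑ i, (ℓ i w) ^ 2 := fun w => hL _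
  have e3 : Q ((step st a)^[T] F) = ∑ i, (m i) ^ 2 := hL _
  have i1 : ∀ i, Integrable (fun w => (ℓ i w - m i) ^ 2) (env G ν) := fun i =>
    ((hℓ i).sub (memLp_const (m i))).integrable_sq
  simp_rw [e1]
  refine ⟨integrable_finsetSum _ (fun i _ => i1 i), ?_⟩
  rw [integral_finsetSum _ (fun i _ => i1 i), ← hS.2, e3]
  simp_rw [e2]
  rw [integral_finsetSum _ (fun i _ => (hℓ i).integrable_sq), ← Finset.sum_sub_distrib]
  refine Finset.sum_congr rfl (fun i _ => ?_)
  have e5 : ∀ w, (ℓ i w - m i) ^ 2 = ℓ i w ^ 2 - 2 * m i * ℓ i w + m i ^ 2 := fun w => by ring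
  simp_rw [e5]
  have j1 : Integrable (fun w => ℓ i w ^ 2) (env G ν) := (hℓ i).integrable_sq
  have j2 : Integrable (fun w => 2 * m i * ℓ i w) (env G ν) :=
    ((hℓ i).integrable (by norm_num)).const_mul _
  have j3 : Integrable (fun w => ℓ i w ^ 2 - 2 * m i * ℓ i w) (env G ν) := j1.sub j2
  rw [integral_add j3 (integrable_const _), integral_sub j1 j2, integral_const_mul,
    hmean i]
  simp
  ring

end E5

section E4

variable {G : Type*} [Fintype G] [DecidableEq G] [AddCommGroup G]

lemma step_translate (st : Fin 4 → G) (z : G) (f : G → ℝ) :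
    step st 1 (fun x => f (x - z)) = fun x => step st 1 f (x - z) := by
  funext x
  simp only [step, Pi.one_apply]
  congr 3
  funext i
  congr 1
  abel

lemma iter_translate (st : Fin 4 → G) (z : G) (n : ℕ) (f : G → ℝ) :
    (step st 1)^[n] (fun x => f (x - z)) = fun x => (step st 1)^[n] f (x - z) := by
  induction n with
  | zero => rfl
  | succ n ih => rw [Function.iterate_succ_apply', Function.iterate_succ_apply', ih, step_translate]

lemma dl_translate (z : G) : (dl z : G → ℝ) = fun x => dl 0 (x - z) := by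
  funext x
  simp only [dl, Pi.single_apply, sub_eq_zero]

lemma sq_iter_dl (st : Fin 4 → G) (z : G) (n : ℕ) :
    Pool.Agent.H95.QC.sq ((step st 1)^[n] (dl z)) =
      Pool.Agent.H95.QC.sq ((step st 1)^[n] (dl 0)) := by
  rw [dl_translate, iter_translate]
  unfold Pool.Agent.H95.QC.sq
  exact Fintype.sum_equiv (Equiv.subRight z) _ _ (fun x => rfl)

theorem targetE4 : TargetE4 := by
  intro M j _ F hj
  have hu : ∀ z : Tor M, ∑ y, (step (st M) 1)^[j] (dl z) y ^ 2 = uZ j := by
    intro z
    have h1 : Pool.Agent.H95.QC.sq ((step (st M) 1)^[j] (dl z)) = uZ j := by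
      rw [sq_iter_dl]
      exact Pool.Agent.H9.QC.targetK1 M j hj
    exact h1
  -- expansion
  have e1 : Pool.Agent.H95.QC.sq ((step (st M) 1)^[j] F) = ∑ x, ∑ z, F x * F z *
      ∑ y, (step (st M) 1)^[j] (dl x) y * (step (st M) 1)^[j] (dl z) y := by
    unfold Pool.Agent.H95.QC.sq
    have : ∀ y, (step (st M) 1)^[j] F y ^ 2 = ∑ x, ∑ z, F x * F z *
        ((step (st M) 1)^[j] (dl x) y * (step (st M) 1)^[j] (dl z) y) := by
      intro y
      have h2 : (step (st M) 1)^[j] F y = ∑ z, F z * (step (st M) 1)^[j] (dl z) y := by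
        conv_lhs => rw [eq_sum_dl F]
        rw [iter_sum]
        simp [Finset.sum_apply]
      rw [h2, _root_.sq, Finset.sum_mul_sum]
      refine Finset.sum_congr rfl (fun x _ => Finset.sum_congr rfl (fun z _ => ?_))
      ring
    simp_rw [this, Finset.mul_sum]
    rw [Finset.sum_comm]
    refine Finset.sum_congr rfl (fun x _ => ?_)
    rw [Finset.sum_comm]
  rw [e1]
  have h3 : ∀ x z : Tor M, |∑ y, (step (st M) 1)^[j] (dl x) y * (step (st M) 1)^[j] (dl z) y| ≤
      uZ j := by
    intro x z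
    refine (Finset.abs_sum_le_sum_abs _ _).trans ?_
    have : ∀ y, |(step (st M) 1)^[j] (dl x) y * (step (st M) 1)^[j] (dl z) y| ≤
        ((step (st M) 1)^[j] (dl x) y ^ 2 + (step (st M) 1)^[j] (dl z) y ^ 2) / 2 := by
      intro y
      rw [abs_le]
      constructor
      · nlinarith [sq_nonneg ((step (st M) 1)^[j] (dl x) y + (step (st M) 1)^[j] (dl z) y)]
      · nlinarith [sq_nonneg ((step (st M) 1)^[j] (dl x) y - (step (st M) 1)^[j] (dl z) y)]
    refine (Finset.sum_le_sum (fun y _ => this y)).trans ?_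
    rw [← Finset.sum_div, Finset.sum_add_distrib, hu x, hu z]
    linarith
  calc ∑ x, ∑ z, F x * F z * ∑ y, (step (st M) 1)^[j] (dl x) y * (step (st M) 1)^[j] (dl z) y
      ≤ ∑ x, ∑ z, |F x| * |F z| * uZ j := by
        refine Finset.sum_le_sum (fun x _ => Finset.sum_le_sum (fun z _ => ?_))
        refine (le_abs_self _).trans ?_
        rw [abs_mul, abs_mul]
        exact mul_le_mul_of_nonneg_left (h3 x z) (mul_nonneg (abs_nonneg _) (abs_nonneg _))
    _ = uZ j * (∑ x, |F x|) ^ 2 := by
        rw [_root_.sq, Finset.sum_mul_sum, Finset.mul_sum]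
        refine Finset.sum_congr rfl (fun x _ => ?_)
        rw [Finset.mul_sum]
        refine Finset.sum_congr rfl (fun z _ => ?_)
        ring

end E4

end Pool.Agent.H42.QC
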