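import Pool.Agent.H42.QC.GST

/-!
# GS0: the step of the induction from level `0` to level `1`
-/

set_option autoImplicit false

namespace Pool.Agent.H42.QC

open Finset Pool.Agent.H68.QC Pool.Agent.H70.OQ Pool.Agent.H70.RK Pool.Agent.H6.NB
open Pool.Agent.H79.OQ.TB1 Pool.Agent.H79.OQ.TBI

section

variable {X Z : Type} [Fintype X] [DecidableEq X] [DecidableEq Z]

open scoped Classical in
/-- a random set rarely misses most of a large set -/
theorem few_le (hCH0 : Pool.Agent.H68.QC.T_CH0) {K m : ℕ} {q : ℝ} (hq0 : 0 ≤ q) (hq1 : q ≤ 1)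
    (hK : 2 * ((m : ℝ) + 2) ≤ K * q) (P : X → Prop) (hP : K < {x : X | P x}.ncard) :
    ∑ l : X → Bool, lw q l * ic ({x : X | P x ∧ l x = true}.ncard ≤ m) ≤ 1 / 4 := by
  have e1 : {x : X | P x}.ncard = (univ.filter fun x => P x).card := by
    rw [← Set.ncard_coe_finset]
    congr 1
    ext x
    simp
  have hc : 2 * ((m : ℝ) + 2) ≤ ((univ.filter fun x => P x).card : ℝ) * q := by
    refine hK.trans (mul_le_mul_of_nonneg_right ?_ hq0)
    rw [← e1]
    exact_mod_cast hP.le
  refine le_trans (le_of_eq ?_) (hCH0 X q (univ.filter fun x => P x) m hq0 hq1 hc)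
  refine sum_congr rfl fun l _ => ?_
  have e2 : {x : X | P x ∧ l x = true}.ncard =
      ((univ.filter fun x => P x).filter fun x => l x = true).card := by
    rw [← Set.ncard_coe_finset]
    congr 1
    ext x
    simp
  rw [e2]

theorem core0 (hCH0 : Pool.Agent.H68.QC.T_CH0) {b : Bool} {K m : ℕ} {q : ℝ} (hq0 : 0 ≤ q)
    (hq1 : q ≤ 1) (hK : 2 * ((m : ℝ) + 2) ≤ K * q) {C' : Cls X} {V1 V0 : (X × Z → Bool) → Prop}
    (h : X → Z)
    (hC' : ∀ V1' V0' : (X → Bool) → Prop, C' V1' V0' →
      ¬ (m < {x : X | V1' fun x' => !decide (x' = x)}.ncard ∧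
        if b then m < {x : X | V0' fun x' => !decide (x' = x)}.ncard else V0' fun _ => true))
    (hB : K < {x : X | V1 (glu h fun x' => !decide (x' = x))}.ncard ∧
        if b then K < {x : X | V0 (glu h fun x' => !decide (x' = x))}.ncard
          else V0 (glu h fun _ => true)) :
    1 / 2 ≤ ∑ l : X → Bool, lw q l * ic (¬ RedC C' V1 V0 h l) := by
  obtain ⟨ha, hb⟩ := hB
  have hlw := Pool.Agent.H62.OQ.lws X q
  have h1 := few_le hCH0 hq0 hq1 hK (fun x => V1 (glu h fun x' => !decide (x' = x))) ha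
  have huse : ∀ l : X → Bool, ∀ x, l x = true → ∀ a, l a = false →
      (fun x' => !decide (x' = x)) a = true := by
    intro l x hx a hla
    have : a ≠ x := fun e => by rw [e, hx] at hla; cases hla
    simp [this]
  have hmono : ∀ (l : X → Bool) (V V' : ((X → Bool) → Prop)),
      (∀ s : X → Bool, (∀ a, l a = false → s a = true) → V s → V' s) →
      ¬ {x : X | V (fun x' => !decide (x' = x)) ∧ l x = true}.ncard ≤ m →
      m < {x : X | V' fun x' => !decide (x' = x)}.ncard := by
    intro l V V' hVV hn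
    push Not at hn
    refine hn.trans_le (Set.ncard_le_ncard (fun x hx => ?_) (Set.toFinite _))
    exact hVV _ (huse l x hx.2) hx.1
  cases b with
  | false =>
    have hb' : V0 (glu h fun _ => true) := hb
    have hkey : ∀ l : X → Bool, 1 - ic ({x : X | V1 (glu h fun x' => !decide (x' = x)) ∧
        l x = true}.ncard ≤ m) ≤ ic (¬ RedC C' V1 V0 h l) := by
      intro l
      by_cases c : {x : X | V1 (glu h fun x' => !decide (x' = x)) ∧ l x = true}.ncard ≤ m
      · rw [ic_true c, sub_self]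
        exact ic_nonneg _
      · rw [ic_true (p := ¬ RedC C' V1 V0 h l)]
        · have := ic_nonneg ({x : X | V1 (glu h fun x' => !decide (x' = x)) ∧
            l x = true}.ncard ≤ m)
          linarith
        · rintro ⟨V1', V0', hc, hVV⟩
          exact hC' V1' V0' hc ⟨hmono l (fun s => V1 (glu h s)) V1'
            (fun s hs => (hVV s hs).1) c, (hVV _ fun _ _ => rfl).2 hb'⟩
    have : ∑ l : X → Bool, lw q l * (1 - ic ({x : X | V1 (glu h fun x' => !decide (x' = x)) ∧
        l x = true}.ncard ≤ m)) ≤ ∑ l : X → Bool, lw q l * ic (¬ RedC C' V1 V0 h l) :=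
      sum_le_sum fun l _ => mul_le_mul_of_nonneg_left (hkey l) (lw_nonneg hq0 hq1 l)
    refine le_trans ?_ this
    simp only [mul_sub, mul_one, sum_sub_distrib]
    rw [hlw]
    linarith
  | true =>
    have hb' : K < {x : X | V0 (glu h fun x' => !decide (x' = x))}.ncard := hb
    have h0 := few_le hCH0 hq0 hq1 hK (fun x => V0 (glu h fun x' => !decide (x' = x))) hb'
    have hkey : ∀ l : X → Bool, 1 - ic ({x : X | V1 (glu h fun x' => !decide (x' = x)) ∧
        l x = true}.ncard ≤ m) - ic ({x : X | V0 (glu h fun x' => !decide (x' = x)) ∧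
        l x = true}.ncard ≤ m) ≤ ic (¬ RedC C' V1 V0 h l) := by
      intro l
      have n1 := ic_nonneg ({x : X | V1 (glu h fun x' => !decide (x' = x)) ∧
        l x = true}.ncard ≤ m)
      have n0 := ic_nonneg ({x : X | V0 (glu h fun x' => !decide (x' = x)) ∧
        l x = true}.ncard ≤ m)
      by_cases c : {x : X | V1 (glu h fun x' => !decide (x' = x)) ∧ l x = true}.ncard ≤ m
      · have := ic_nonneg (¬ RedC C' V1 V0 h l)
        rw [ic_true c] at n1 ⊢
        linarith
      by_cases c0 : {x : X | V0 (glu h fun x' => !decide (x' = x)) ∧ l x = true}.ncard ≤ m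
      · have := ic_nonneg (¬ RedC C' V1 V0 h l)
        rw [ic_true c0] at n0 ⊢
        linarith
      · rw [ic_true (p := ¬ RedC C' V1 V0 h l)]
        · linarith
        · rintro ⟨V1', V0', hc, hVV⟩
          exact hC' V1' V0' hc ⟨hmono l (fun s => V1 (glu h s)) V1'
            (fun s hs => (hVV s hs).1) c, hmono l (fun s => V0 (glu h s)) V0'
            (fun s hs => (hVV s hs).2) c0⟩
    have : ∑ l : X → Bool, lw q l * (1 - ic ({x : X | V1 (glu h fun x' => !decide (x' = x)) ∧
        l x = true}.ncard ≤ m) - ic ({x : X | V0 (glu h fun x' => !decide (x' = x)) ∧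
        l x = true}.ncard ≤ m)) ≤ ∑ l : X → Bool, lw q l * ic (¬ RedC C' V1 V0 h l) :=
      sum_le_sum fun l _ => mul_le_mul_of_nonneg_left (hkey l) (lw_nonneg hq0 hq1 l)
    refine le_trans ?_ this
    simp only [mul_sub, mul_one, sum_sub_distrib]
    rw [hlw]
    linarith

end

theorem pf_GS0 (hCH0 : Pool.Agent.H68.QC.T_CH0) : Pool.Agent.H68.QC.T_GS0 := by
  intro X Y _ _ _ _ b K m M' q ρ C' C hq0 hq1 hM' hK hC' hred L V1 V0 hC hL
  have huw := Pool.Agent.H62.OQ.uws (Node X Y 0) (Y 0) L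
  have hred' := hred L V1 V0 hC hL
  have hsum : ∀ F : Hid X Y 0 → ℝ, ∑ H, F H = F () := fun F => Fintype.sum_unique (ι := Unit) F
  rw [hsum, card_hid0, Nat.cast_one, mul_one]
  have key : ∀ h : Node X Y 0 → Y 0, uw L h * ic (Bad b K (0 + 1) V1 V0
      (((), h) : Hid X Y (0 + 1))) ≤ 2 * ∑ l : Node X Y 0 → Bool, uw L h * lw q l *
        ic (¬ RedC (A := Node X Y 0) (Z := Y 0) C' V1 V0 h l) := by
    intro h
    have e : ∑ l : Node X Y 0 → Bool, uw L h * lw q l *
        ic (¬ RedC (A := Node X Y 0) (Z := Y 0) C' V1 V0 h l) = uw L h *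
          ∑ l : Node X Y 0 → Bool, lw q l *
            ic (¬ RedC (A := Node X Y 0) (Z := Y 0) C' V1 V0 h l) := by
      rw [mul_sum]
      refine sum_congr rfl fun l _ => ?_
      ring
    rw [e, mul_left_comm]
    refine mul_le_mul_of_nonneg_left ?_ (huw.1 h)
    by_cases hB : Bad b K (0 + 1) V1 V0 (((), h) : Hid X Y (0 + 1))
    · rw [ic_true hB]
      have := core0 (X := X) (Z := Y 0) hCH0 (b := b) (m := m) (C' := C') (V1 := V1) (V0 := V0)
        hq0 hq1 hK h (fun V1' V0' hc => hC' V1' V0' hc) hB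
      have h2 : (1 / 2 : ℝ) ≤ ∑ l : Node X Y 0 → Bool, lw q l *
          ic (¬ RedC (A := Node X Y 0) (Z := Y 0) C' V1 V0 h l) := this
      linarith
    · have h3 : ic (Bad b K (0 + 1) V1 V0 (((), h) : Hid X Y (0 + 1))) = 0 := by
        unfold ic
        rw [if_neg hB]
      rw [h3]
      have : (0 : ℝ) ≤ ∑ l : Node X Y 0 → Bool, lw q l *
          ic (¬ RedC (A := Node X Y 0) (Z := Y 0) C' V1 V0 h l) :=
        sum_nonneg fun l _ => mul_nonneg (lw_nonneg hq0 hq1 l) (ic_nonneg _)
      linarith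
  refine (sum_le_sum fun h _ => key h).trans ?_
  rw [← mul_sum]
  exact mul_le_mul_of_nonneg_left hred' (by norm_num)

end Pool.Agent.H42.QC
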