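import Pool.Agent.H42.QC.GST

/-!
# GSL: a restriction at the same level
-/

set_option autoImplicit false

namespace Pool.Agent.H42.QC

open Finset Pool.Agent.H68.QC Pool.Agent.H70.OQ Pool.Agent.H70.RK Pool.Agent.H6.NB
open Pool.Agent.H79.OQ.TB1 Pool.Agent.H79.OQ.TBI

theorem LofL_nonempty {A Z : Type} [DecidableEq Z] (L : A → Finset Z) (hL : ∀ a, (L a).Nonempty)
    (l : A × Z → Bool) (a : A) : (LofL L l a).Nonempty := by
  unfold LofL
  split_ifs with h
  · exact hL a
  · exact nonempty_iff_ne_empty.2 h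

theorem LofL_eq {A Z : Type} [DecidableEq Z] (L : A → Finset Z) (l : A × Z → Bool)
    (a : A) (h : 0 < ((L a).filter fun z => l (a, z) = true).card) :
    LofL L l a = (L a).filter fun z => l (a, z) = true := by
  unfold LofL
  rw [if_neg]
  intro e
  rw [e] at h
  simp at h

/-- the hidden child is live in the support of the weight -/
theorem live_of_uwL {A Z : Type} [Fintype A] [DecidableEq Z] (L : A → Finset Z) (l : A × Z → Bool)
    (hl : ∀ a, 0 < ((L a).filter fun z => l (a, z) = true).card) (h' : A → Z)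
    (hne : uw (LofL L l) h' ≠ 0) (a : A) : l (a, h' a) = true := by
  unfold uw at hne
  rw [prod_ne_zero_iff] at hne
  have h1 := hne a (mem_univ a)
  by_contra hcon
  apply h1
  rw [if_neg]
  rw [LofL_eq L l a (hl a), mem_filter]
  exact fun h => hcon h.2

section

variable {X : Type} {Y : ℕ → Type} [Fintype X] [DecidableEq X] [∀ i, Fintype (Y i)]
  [∀ i, DecidableEq (Y i)]

omit [∀ i, Fintype (Y i)] in
theorem badL_red (b : Bool) (K i : ℕ) {V1 V0 : (Node X Y (i + 1) → Bool) → Prop}
    (l : Node X Y i × Y i → Bool) {V1' V0' : (Node X Y (i + 1) → Bool) → Prop}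
    (hf' : ∀ y : Node X Y (i + 1) → Bool, (∀ v : Node X Y (i + 1), l v = false → y v = true) →
      (V1 y → V1' y) ∧ (V0 y → V0' y))
    (H : Hid X Y i) (h : Node X Y i → Y i) (hl : ∀ a : Node X Y i, l (a, h a) = true)
    (hB : Bad b K (i + 1) V1 V0 ((H, h) : Hid X Y (i + 1))) :
    Bad b K (i + 1) V1' V0' ((H, h) : Hid X Y (i + 1)) := by
  refine bad_mono (fun x hx => ?_) (fun x hx => ?_) (fun hx => ?_) hB
  · exact (hf' (tabU (i + 1) ((H, h) : Hid X Y (i + 1)) x)
      (fun v hv => glu_true (A := Node X Y i) l h hl _ v hv)).1 hx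
  · exact (hf' (tabU (i + 1) ((H, h) : Hid X Y (i + 1)) x)
      (fun v hv => glu_true (A := Node X Y i) l h hl _ v hv)).2 hx
  · exact (hf' (tabT (i + 1) ((H, h) : Hid X Y (i + 1)))
      (fun v hv => glu_true (A := Node X Y i) l h hl _ v hv)).2 hx

theorem pairL_le (b : Bool) (K i M : ℕ) {E : ℝ} (hE : 0 ≤ E) (hM : 1 ≤ M)
    {C' : Cls (Node X Y (i + 1))} (ih : TabB X Y b K i M C' E)
    (L : Node X Y i → Finset (Y i)) (hL : ∀ a, (L a).Nonempty)
    (V1 V0 : (Node X Y (i + 1) → Bool) → Prop) (l : Node X Y i × Y i → Bool) :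
    ∑ H : Hid X Y i, ∑ h : Node X Y i → Y i, uw (LofL L l) h *
        ic (Bad b K (i + 1) V1 V0 ((H, h) : Hid X Y (i + 1))) ≤
      (ic (¬ RedL (V := Node X Y (i + 1)) C' V1 V0 l) +
        ic (∃ a : Node X Y i, ((L a).filter fun z => l (a, z) = true).card < M) + E) *
        Fintype.card (Hid X Y i) := by
  have hcH : (0 : ℝ) ≤ Fintype.card (Hid X Y i) := by positivity
  have huw := Pool.Agent.H62.OQ.uws (Node X Y i) (Y i) (LofL L l)
  have triv : ∑ H : Hid X Y i, ∑ h : Node X Y i → Y i, uw (LofL L l) h *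
        ic (Bad b K (i + 1) V1 V0 ((H, h) : Hid X Y (i + 1))) ≤
        1 * Fintype.card (Hid X Y i) := by
    calc ∑ H : Hid X Y i, ∑ h : Node X Y i → Y i, uw (LofL L l) h *
          ic (Bad b K (i + 1) V1 V0 ((H, h) : Hid X Y (i + 1)))
        ≤ ∑ H : Hid X Y i, ∑ h : Node X Y i → Y i, uw (LofL L l) h := by
          refine sum_le_sum fun H _ => sum_le_sum fun h' _ => ?_
          exact mul_le_of_le_one_right (huw.1 h') (ic_le_one _)
      _ = ∑ H : Hid X Y i, (1 : ℝ) := by
          refine sum_congr rfl fun H _ => ?_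
          exact huw.2 (fun a => LofL_nonempty L hL _ a)
      _ = 1 * Fintype.card (Hid X Y i) := by simp
  by_cases c1 : RedL (V := Node X Y (i + 1)) C' V1 V0 l
  · by_cases c2 : ∃ a : Node X Y i, ((L a).filter fun z => l (a, z) = true).card < M
    · refine triv.trans (mul_le_mul_of_nonneg_right ?_ hcH)
      rw [ic_true c2]
      have := ic_nonneg (¬ RedL (V := Node X Y (i + 1)) C' V1 V0 l)
      linarith
    · push Not at c2
      obtain ⟨V1', V0', hfm, hf'⟩ := c1
      have hpos : ∀ a : Node X Y i, 0 < ((L a).filter fun z => l (a, z) = true).card := fun a =>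
        lt_of_lt_of_le hM (c2 a)
      have key := ih (LofL L l) V1' V0' hfm (fun a => by
        rw [LofL_eq L l a (hpos a)]
        exact c2 a)
      have e : ∑ H : Hid X Y i, ∑ h : Node X Y i → Y i, uw (LofL L l) h *
          ic (Bad b K (i + 1) V1 V0 ((H, h) : Hid X Y (i + 1))) ≤
          ∑ H : Hid X Y i, ∑ h : Node X Y i → Y i, uw (LofL L l) h *
          ic (Bad b K (i + 1) V1' V0' ((H, h) : Hid X Y (i + 1))) := by
        refine sum_le_sum fun H _ => sum_le_sum fun h' _ => ?_
        by_cases hz : uw (LofL L l) h' = 0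
        · rw [hz, zero_mul, zero_mul]
        · exact mul_le_mul_of_nonneg_left (ic_mono fun hB =>
            badL_red b K i l hf' H h' (live_of_uwL L l hpos h' hz) hB) (huw.1 h')
      refine e.trans (key.trans (mul_le_mul_of_nonneg_right ?_ hcH))
      have := ic_nonneg (¬ RedL (V := Node X Y (i + 1)) C' V1 V0 l)
      have := ic_nonneg (∃ a : Node X Y i, ((L a).filter fun z => l (a, z) = true).card < M)
      linarith
  · refine triv.trans (mul_le_mul_of_nonneg_right ?_ hcH)
    rw [ic_true c1]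
    have := ic_nonneg (∃ a : Node X Y i, ((L a).filter fun z => l (a, z) = true).card < M)
    linarith

end

theorem pf_GSL (hSYL : Pool.Agent.H68.QC.T_SYL) (hLVL : Pool.Agent.H68.QC.T_LVL) :
    Pool.Agent.H68.QC.T_GSL := by
  intro X Y _ _ _ _ b K i M M' G q ρ E C' C hq0 hq1 hE hM hM' hG ih hred L V1 V0 hC hL
  have hLne : ∀ a, (L a).Nonempty := fun a => by
    rw [← card_pos]
    exact lt_of_lt_of_le hM' (hL a)
  have hred' := hred V1 V0 hC
  have hliv := hLVL (Node X Y i) (Y i) q M G L hq0 hq1 fun a => hG.trans (hL a)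
  have hlw1 : ∑ l : Node X Y i × Y i → Bool, lw q l = 1 :=
    Pool.Agent.H62.OQ.lws (Node X Y i × Y i) q
  have hcH : (0 : ℝ) ≤ Fintype.card (Hid X Y i) := by positivity
  have e1 : ∑ H : Hid X Y i, ∑ h : Node X Y i → Y i, uw L h *
      ic (Bad b K (i + 1) V1 V0 ((H, h) : Hid X Y (i + 1))) =
      ∑ l : Node X Y i × Y i → Bool, lw q l * ∑ H : Hid X Y i, ∑ h : Node X Y i → Y i,
        uw (LofL L l) h * ic (Bad b K (i + 1) V1 V0 ((H, h) : Hid X Y (i + 1))) := by
    calc ∑ H : Hid X Y i, ∑ h : Node X Y i → Y i, uw L h *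
          ic (Bad b K (i + 1) V1 V0 ((H, h) : Hid X Y (i + 1)))
        = ∑ H : Hid X Y i, ∑ l : Node X Y i × Y i → Bool, lw q l * ∑ h : Node X Y i → Y i,
            uw (LofL L l) h * ic (Bad b K (i + 1) V1 V0 ((H, h) : Hid X Y (i + 1))) :=
          sum_congr rfl fun H _ => (hSYL (Node X Y i) (Y i) q L
            (fun h => ic (Bad b K (i + 1) V1 V0 ((H, h) : Hid X Y (i + 1)))) hLne).symm
      _ = ∑ l : Node X Y i × Y i → Bool, ∑ H : Hid X Y i, lw q l * ∑ h : Node X Y i → Y i,
            uw (LofL L l) h * ic (Bad b K (i + 1) V1 V0 ((H, h) : Hid X Y (i + 1))) := sum_comm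
      _ = _ := sum_congr rfl fun l _ => (mul_sum _ _ _).symm
  rw [e1]
  calc ∑ l : Node X Y i × Y i → Bool, lw q l * ∑ H : Hid X Y i, ∑ h : Node X Y i → Y i,
        uw (LofL L l) h * ic (Bad b K (i + 1) V1 V0 ((H, h) : Hid X Y (i + 1)))
      ≤ ∑ l : Node X Y i × Y i → Bool, lw q l *
        ((ic (¬ RedL (V := Node X Y (i + 1)) C' V1 V0 l) +
        ic (∃ a : Node X Y i, ((L a).filter fun z => l (a, z) = true).card < M) + E) *
        Fintype.card (Hid X Y i)) :=
        sum_le_sum fun l _ => mul_le_mul_of_nonneg_left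
          (pairL_le b K i M hE hM ih L hLne V1 V0 l) (lw_nonneg hq0 hq1 l)
    _ = (∑ l : Node X Y i × Y i → Bool, lw q l *
            ic (¬ RedL (V := Node X Y (i + 1)) C' V1 V0 l) +
          ∑ l : Node X Y i × Y i → Bool, lw q l *
            ic (∃ a : Node X Y i, ((L a).filter fun z => l (a, z) = true).card < M) +
          (∑ l : Node X Y i × Y i → Bool, lw q l) * E) * Fintype.card (Hid X Y i) := by
        rw [sum_mul, ← sum_add_distrib, ← sum_add_distrib, sum_mul]
        refine sum_congr rfl fun l _ => ?_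
        ring
    _ ≤ (ρ + Fintype.card (Node X Y i) * M * (1 - q) ^ G + E) * Fintype.card (Hid X Y i) := by
        rw [hlw1, one_mul]
        refine mul_le_mul_of_nonneg_right ?_ hcH
        linarith

end Pool.Agent.H42.QC
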