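import Pool.Agent.H68.QC.Targets
import Pool.Agent.H79.OQ.TBI
import Pool.Agent.H62.OQ.LWS

/-!
# GST: the step of the induction from level `i + 1` to level `i + 2`
-/

set_option autoImplicit false

namespace Pool.Agent.H42.QC

open Finset Pool.Agent.H68.QC Pool.Agent.H70.OQ Pool.Agent.H70.RK Pool.Agent.H6.NB
open Pool.Agent.H79.OQ.TB1 Pool.Agent.H79.OQ.TBI

theorem bad_mono {X : Type} {Y : ℕ → Type} [Fintype X] [DecidableEq X] [∀ i, DecidableEq (Y i)]
    {b : Bool} {K i j : ℕ} {V1 V0 : (Node X Y i → Bool) → Prop}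
    {V1' V0' : (Node X Y j → Bool) → Prop} {H : Hid X Y i} {H' : Hid X Y j}
    (h1 : ∀ x, V1 (tabU i H x) → V1' (tabU j H' x))
    (h0 : ∀ x, V0 (tabU i H x) → V0' (tabU j H' x)) (hT : V0 (tabT i H) → V0' (tabT j H'))
    (hB : Bad b K i V1 V0 H) : Bad b K j V1' V0' H' := by
  obtain ⟨ha, hb⟩ := hB
  refine ⟨ha.trans_le (Set.ncard_le_ncard (fun x hx => h1 x hx) (Set.toFinite _)), ?_⟩
  cases b
  · exact hT hb
  · have hb' : K < {x : X | V0 (tabU i H x)}.ncard := hb
    exact hb'.trans_le (Set.ncard_le_ncard (fun x hx => h0 x hx) (Set.toFinite _))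

section

variable {X : Type} {Y : ℕ → Type} [Fintype X] [DecidableEq X] [∀ i, Fintype (Y i)]
  [∀ i, DecidableEq (Y i)] [∀ i, Nonempty (Y i)]

omit [∀ i, Fintype (Y i)] [∀ i, Nonempty (Y i)] in
theorem bad_red (b : Bool) (K k : ℕ) {V1 V0 : (Node X Y (k + 2) → Bool) → Prop}
    (h : Node X Y (k + 1) → Y (k + 1)) (l : Node X Y (k + 1) → Bool)
    {V1' V0' : (Node X Y (k + 1) → Bool) → Prop}
    (hf' : ∀ s : Node X Y (k + 1) → Bool, (∀ a, l a = false → s a = true) →
      (V1 (glu h s) → V1' s) ∧ (V0 (glu h s) → V0' s))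
    (H : Hid X Y k) (h' : Node X Y k → Y k) (hl : ∀ a : Node X Y k, l (a, h' a) = true)
    (hB : Bad b K (k + 2) V1 V0 (((H, h'), h) : Hid X Y (k + 2))) :
    Bad b K (k + 1) V1' V0' ((H, h') : Hid X Y (k + 1)) := by
  refine bad_mono (fun x hx => ?_) (fun x hx => ?_) (fun hx => ?_) hB
  · exact (hf' (tabU (k + 1) ((H, h') : Hid X Y (k + 1)) x)
      (fun v hv => glu_true (A := Node X Y k) l h' hl _ v hv)).1 hx
  · exact (hf' (tabU (k + 1) ((H, h') : Hid X Y (k + 1)) x)
      (fun v hv => glu_true (A := Node X Y k) l h' hl _ v hv)).2 hx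
  · exact (hf' (tabT (k + 1) ((H, h') : Hid X Y (k + 1)))
      (fun v hv => glu_true (A := Node X Y k) l h' hl _ v hv)).2 hx

theorem pairC_le (b : Bool) (K k M : ℕ) {E : ℝ} (hE : 0 ≤ E) (hM : 1 ≤ M)
    {C' : Cls (Node X Y (k + 1))} (ih : TabB X Y b K k M C' E)
    (V1 V0 : (Node X Y (k + 2) → Bool) → Prop) (h : Node X Y (k + 1) → Y (k + 1))
    (l : Node X Y (k + 1) → Bool) :
    ∑ H : Hid X Y k, ∑ h' : Node X Y k → Y k, uw (Lof (A := Node X Y k) l) h' *
        ic (Bad b K (k + 2) V1 V0 (((H, h'), h) : Hid X Y (k + 2))) ≤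
      (ic (¬ RedC (A := Node X Y (k + 1)) (Z := Y (k + 1)) C' V1 V0 h l) +
        ic (∃ a : Node X Y k, (univ.filter fun z => l (a, z) = true).card < M) + E) *
        Fintype.card (Hid X Y k) := by
  have hcH : (0 : ℝ) ≤ Fintype.card (Hid X Y k) := by positivity
  have huw := Pool.Agent.H62.OQ.uws (Node X Y k) (Y k) (Lof (A := Node X Y k) l)
  have triv : ∑ H : Hid X Y k, ∑ h' : Node X Y k → Y k, uw (Lof (A := Node X Y k) l) h' *
        ic (Bad b K (k + 2) V1 V0 (((H, h'), h) : Hid X Y (k + 2))) ≤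
        1 * Fintype.card (Hid X Y k) := by
    calc ∑ H : Hid X Y k, ∑ h' : Node X Y k → Y k, uw (Lof (A := Node X Y k) l) h' *
          ic (Bad b K (k + 2) V1 V0 (((H, h'), h) : Hid X Y (k + 2)))
        ≤ ∑ H : Hid X Y k, ∑ h' : Node X Y k → Y k, uw (Lof (A := Node X Y k) l) h' := by
          refine sum_le_sum fun H _ => sum_le_sum fun h' _ => ?_
          exact mul_le_of_le_one_right (huw.1 h') (ic_le_one _)
      _ = ∑ H : Hid X Y k, (1 : ℝ) := by
          refine sum_congr rfl fun H _ => ?_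
          exact huw.2 (fun a => Lof_nonempty _ a)
      _ = 1 * Fintype.card (Hid X Y k) := by simp
  by_cases c1 : RedC (A := Node X Y (k + 1)) (Z := Y (k + 1)) C' V1 V0 h l
  · by_cases c2 : ∃ a : Node X Y k, (univ.filter fun z => l (a, z) = true).card < M
    · refine triv.trans (mul_le_mul_of_nonneg_right ?_ hcH)
      rw [ic_true c2]
      have := ic_nonneg (¬ RedC (A := Node X Y (k + 1)) (Z := Y (k + 1)) C' V1 V0 h l)
      linarith
    · push Not at c2
      obtain ⟨V1', V0', hfm, hf'⟩ := c1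
      have hpos : ∀ a : Node X Y k, 0 < (univ.filter fun z => l (a, z) = true).card := fun a =>
        lt_of_lt_of_le hM (c2 a)
      have key := ih (Lof (A := Node X Y k) l) V1' V0' hfm (fun a => by
        rw [Lof_eq l a (hpos a)]
        exact c2 a)
      have e : ∑ H : Hid X Y k, ∑ h' : Node X Y k → Y k, uw (Lof (A := Node X Y k) l) h' *
          ic (Bad b K (k + 2) V1 V0 (((H, h'), h) : Hid X Y (k + 2))) ≤
          ∑ H : Hid X Y k, ∑ h' : Node X Y k → Y k, uw (Lof (A := Node X Y k) l) h' *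
          ic (Bad b K (k + 1) V1' V0' ((H, h') : Hid X Y (k + 1))) := by
        refine sum_le_sum fun H _ => sum_le_sum fun h' _ => ?_
        by_cases hz : uw (Lof (A := Node X Y k) l) h' = 0
        · rw [hz, zero_mul, zero_mul]
        · exact mul_le_mul_of_nonneg_left (ic_mono fun hB =>
            bad_red b K k h l hf' H h' (live_of_uw (A := Node X Y k) l hpos h' hz) hB) (huw.1 h')
      refine e.trans (key.trans (mul_le_mul_of_nonneg_right ?_ hcH))
      have := ic_nonneg (¬ RedC (A := Node X Y (k + 1)) (Z := Y (k + 1)) C' V1 V0 h l)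
      have := ic_nonneg (∃ a : Node X Y k, (univ.filter fun z => l (a, z) = true).card < M)
      linarith
  · refine triv.trans (mul_le_mul_of_nonneg_right ?_ hcH)
    rw [ic_true c1]
    have := ic_nonneg (∃ a : Node X Y k, (univ.filter fun z => l (a, z) = true).card < M)
    linarith

end

theorem pf_GST : T_GST := by
  intro X Y _ _ _ _ _ b K k M M' G q ρ E C' C hq0 hq1 hE hM hM' hYk ih hred L V1 V0 hC hL
  have huL := Pool.Agent.H62.OQ.uws (Node X Y (k + 1)) (Y (k + 1)) L
  have hLne : ∀ a, (L a).Nonempty := fun a => by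
    rw [← card_pos]
    exact lt_of_lt_of_le hM' (hL a)
  have huL1 := huL.2 hLne
  have hred' := hred L V1 V0 hC hL
  have hsym : ∀ F : (Node X Y k → Y k) → ℝ,
      ∑ l : Node X Y (k + 1) → Bool, lw q l *
        ∑ h : Node X Y k → Y k, uw (Lof (A := Node X Y k) l) h * F h =
      (∑ h, F h) / (Fintype.card (Y k) : ℝ) ^ Fintype.card (Node X Y k) :=
    fun F => Pool.Agent.H62.OQ.sym (Node X Y k) (Y k) q F
  have hliv : ∑ l : Node X Y (k + 1) → Bool, lw q l *
      ic (∃ a : Node X Y k, (univ.filter fun z => l (a, z) = true).card < M) ≤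
      Fintype.card (Node X Y k) * M * (1 - q) ^ G :=
    Pool.Agent.H62.OQ.liv (Node X Y k) (Y k) q M G hq0 hq1 hYk
  have hlw1 : ∑ l : Node X Y (k + 1) → Bool, lw q l = 1 :=
    Pool.Agent.H62.OQ.lws (Node X Y (k + 1)) q
  have hc : (0 : ℝ) < (Fintype.card (Y k) : ℝ) ^ Fintype.card (Node X Y k) := by
    have : 0 < Fintype.card (Y k) := Fintype.card_pos
    positivity
  have hcH : (0 : ℝ) ≤ Fintype.card (Hid X Y k) := by positivity
  set c : ℝ := (Fintype.card (Y k) : ℝ) ^ Fintype.card (Node X Y k) with hcdef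
  -- the sum over the hidden choices
  have e1 : ∑ H : Hid X Y (k + 1), ∑ h : Node X Y (k + 1) → Y (k + 1), uw L h *
      ic (Bad b K (k + 1 + 1) V1 V0 ((H, h) : Hid X Y (k + 1 + 1))) =
      ∑ h' : Node X Y k → Y k, ∑ H : Hid X Y k, ∑ h : Node X Y (k + 1) → Y (k + 1), uw L h *
      ic (Bad b K (k + 2) V1 V0 (((H, h'), h) : Hid X Y (k + 2))) := by
    rw [sum_hid, sum_comm]
  have e2 : ∑ h' : Node X Y k → Y k, ∑ H : Hid X Y k, ∑ h : Node X Y (k + 1) → Y (k + 1), uw L h *
      ic (Bad b K (k + 2) V1 V0 (((H, h'), h) : Hid X Y (k + 2))) =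
      c * ∑ l : Node X Y (k + 1) → Bool, lw q l *
        ∑ h' : Node X Y k → Y k, uw (Lof (A := Node X Y k) l) h' *
          ∑ H : Hid X Y k, ∑ h : Node X Y (k + 1) → Y (k + 1), uw L h *
            ic (Bad b K (k + 2) V1 V0 (((H, h'), h) : Hid X Y (k + 2))) := by
    rw [hsym, mul_div_cancel₀ _ hc.ne']
  have e3 : ∑ l : Node X Y (k + 1) → Bool, lw q l *
        ∑ h' : Node X Y k → Y k, uw (Lof (A := Node X Y k) l) h' *
          ∑ H : Hid X Y k, ∑ h : Node X Y (k + 1) → Y (k + 1), uw L h *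
            ic (Bad b K (k + 2) V1 V0 (((H, h'), h) : Hid X Y (k + 2))) =
      ∑ h : Node X Y (k + 1) → Y (k + 1), ∑ l : Node X Y (k + 1) → Bool, uw L h * lw q l *
        ∑ H : Hid X Y k, ∑ h' : Node X Y k → Y k, uw (Lof (A := Node X Y k) l) h' *
          ic (Bad b K (k + 2) V1 V0 (((H, h'), h) : Hid X Y (k + 2))) := by
    rw [sum_comm]
    refine sum_congr rfl fun l _ => ?_
    have : ∑ h' : Node X Y k → Y k, uw (Lof (A := Node X Y k) l) h' *
          ∑ H : Hid X Y k, ∑ h : Node X Y (k + 1) → Y (k + 1), uw L h *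
            ic (Bad b K (k + 2) V1 V0 (((H, h'), h) : Hid X Y (k + 2))) =
        ∑ h : Node X Y (k + 1) → Y (k + 1), uw L h *
          ∑ H : Hid X Y k, ∑ h' : Node X Y k → Y k, uw (Lof (A := Node X Y k) l) h' *
          ic (Bad b K (k + 2) V1 V0 (((H, h'), h) : Hid X Y (k + 2))) := by
      simp only [mul_sum]
      rw [sum_comm]
      rw [sum_comm (s := (univ : Finset (Node X Y (k + 1) → Y (k + 1))))]
      refine sum_congr rfl fun H _ => ?_
      rw [sum_comm]
      refine sum_congr rfl fun h _ => sum_congr rfl fun h' _ => ?_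
      ring
    rw [this, mul_sum]
    refine sum_congr rfl fun h _ => ?_
    ring
  rw [e1, e2, e3]
  have e4 : ∑ h : Node X Y (k + 1) → Y (k + 1), ∑ l : Node X Y (k + 1) → Bool, uw L h * lw q l *
        ∑ H : Hid X Y k, ∑ h' : Node X Y k → Y k, uw (Lof (A := Node X Y k) l) h' *
          ic (Bad b K (k + 2) V1 V0 (((H, h'), h) : Hid X Y (k + 2))) ≤
      ∑ h : Node X Y (k + 1) → Y (k + 1), ∑ l : Node X Y (k + 1) → Bool, uw L h * lw q l *
        ((ic (¬ RedC (A := Node X Y (k + 1)) (Z := Y (k + 1)) C' V1 V0 h l) +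
      ic (∃ a : Node X Y k, (univ.filter fun z => l (a, z) = true).card < M) + E) *
        Fintype.card (Hid X Y k)) := by
    refine sum_le_sum fun h _ => sum_le_sum fun l _ => ?_
    exact mul_le_mul_of_nonneg_left (pairC_le b K k M hE hM ih V1 V0 h l)
      (mul_nonneg (huL.1 h) (lw_nonneg hq0 hq1 l))
  have e5 : ∑ h : Node X Y (k + 1) → Y (k + 1), ∑ l : Node X Y (k + 1) → Bool, uw L h * lw q l *
        ((ic (¬ RedC (A := Node X Y (k + 1)) (Z := Y (k + 1)) C' V1 V0 h l) +
      ic (∃ a : Node X Y k, (univ.filter fun z => l (a, z) = true).card < M) + E) *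
        Fintype.card (Hid X Y k)) =
      ((∑ h : Node X Y (k + 1) → Y (k + 1), ∑ l : Node X Y (k + 1) → Bool,
          uw L h * lw q l * ic (¬ RedC (A := Node X Y (k + 1)) (Z := Y (k + 1)) C' V1 V0 h l)) +
        (∑ h : Node X Y (k + 1) → Y (k + 1), uw L h) *
          (∑ l : Node X Y (k + 1) → Bool, lw q l *
            ic (∃ a : Node X Y k, (univ.filter fun z => l (a, z) = true).card < M)) +
        (∑ h : Node X Y (k + 1) → Y (k + 1), uw L h) *
          (∑ l : Node X Y (k + 1) → Bool, lw q l) * E) *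
        Fintype.card (Hid X Y k) := by
    rw [sum_mul_sum, sum_mul_sum, sum_mul, ← sum_add_distrib, ← sum_add_distrib, sum_mul]
    refine sum_congr rfl fun h _ => ?_
    rw [sum_mul, ← sum_add_distrib, ← sum_add_distrib, sum_mul]
    refine sum_congr rfl fun l _ => ?_
    ring
  rw [e5, huL1, hlw1, one_mul, one_mul, one_mul] at e4
  calc c * _ ≤ c * (((∑ h : Node X Y (k + 1) → Y (k + 1), ∑ l : Node X Y (k + 1) → Bool,
          uw L h * lw q l * ic (¬ RedC (A := Node X Y (k + 1)) (Z := Y (k + 1)) C' V1 V0 h l)) +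
          (∑ l : Node X Y (k + 1) → Bool, lw q l *
            ic (∃ a : Node X Y k, (univ.filter fun z => l (a, z) = true).card < M)) + E) *
        Fintype.card (Hid X Y k)) := mul_le_mul_of_nonneg_left e4 hc.le
    _ ≤ c * ((ρ + Fintype.card (Node X Y k) * M * (1 - q) ^ G + E) *
        Fintype.card (Hid X Y k)) := by
        refine mul_le_mul_of_nonneg_left (mul_le_mul_of_nonneg_right ?_ hcH) hc.le
        linarith
    _ = (ρ + Fintype.card (Node X Y k) * M * (1 - q) ^ G + E) *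
        Fintype.card (Hid X Y (k + 1)) := by
        rw [card_hid]
        push_cast
        rw [← hcdef]
        ring

end Pool.Agent.H42.QC
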