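import Mathlib
import Pool.Agent.H42.QC.E45
import Pool.Agent.H94.QC.K3

/-!
# Quasi-critical polymer: modules P1, P2, P3 (one block, deterministic start)
-/

open MeasureTheory ProbabilityTheory Filter Topology
open scoped ENNReal NNReal BigOperators

set_option linter.unusedSectionVars false

namespace Pool.Agent.H42.QC

open Pool.Agent.H95 Pool.Agent.H95.QC

/-- sums of squares are closed under finite sums -/
lemma isSOS_sum {G : Type} [Fintype G] {ι : Type} (s : Finset ι) (Q : ι → (G → ℝ) → ℝ)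
    (h : ∀ i ∈ s, IsSOS (Q i)) : IsSOS (fun F => ∑ i ∈ s, Q i F) := by
  classical
  induction s using Finset.induction_on with
  | empty => exact ⟨0, fun i => i.elim0, fun F => by simp⟩
  | insert i s hi ih =>
    obtain ⟨k, L, hL⟩ := ih (fun j hj => h j (Finset.mem_insert_of_mem hj))
    obtain ⟨k', L', hL'⟩ := h i (Finset.mem_insert_self i s)
    refine ⟨k' + k, Fin.append L' L, fun F => ?_⟩
    rw [Fin.sum_univ_add]
    simp only [Fin.append_left, Fin.append_right]
    rw [← hL' F, ← hL F, Finset.sum_insert hi]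

lemma isSOS_En (M T : ℕ) [NeZero M] : IsSOS (En M T) := by
  unfold En Pool.Agent.H95.QC.sq
  refine isSOS_sum _ (fun n F => ∑ x, (step (st M) 1)^[n] F x ^ 2) (fun n _ => ?_)
  refine isSOS_sum Finset.univ (fun x F => (step (st M) 1)^[n] F x ^ 2) (fun x _ => ?_)
  refine ⟨1, fun _ z => (step (st M) 1)^[n] (dl z) x, fun F => ?_⟩
  simp only [Finset.univ_unique, Finset.sum_singleton]
  rw [iter_eq_sum]
  congr 1
  exact Finset.sum_congr rfl (fun z _ => mul_comm _ _)

lemma isSOS_mass (G : Type) [Fintype G] : IsSOS (fun F : G → ℝ => (∑ x, F x) ^ 2) :=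
  ⟨1, fun _ _ => 1, fun F => by simp⟩

/-- conversion of the centred second moment to `lintegral` -/
lemma lintegral_centred {G : Type} [Fintype G] [DecidableEq G] [AddCommGroup G]
    (st : Fin 4 → G) {ν : Measure ℝ≥0} {s : ℝ} (h : Wt ν s) {Q : (G → ℝ) → ℝ} (hQ : IsSOS Q)
    (T : ℕ) (F : G → ℝ) :
    ∫⁻ w, ENNReal.ofReal (Q (evo st 1 T w F - (step st 1)^[T] F)) ∂(env G ν) =
      ENNReal.ofReal (qv st 1 s Q T F - Q ((step st 1)^[T] F)) := by
  have h5 := (targetE5 G st 1 ν s h T F).2 Q hQ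
  rw [← h5.2, ofReal_integral_eq_lintegral_ofReal h5.1 (ae_of_all _ (fun w => SOS_nonneg hQ _))]

lemma lintegral_plain {G : Type} [Fintype G] [DecidableEq G] [AddCommGroup G]
    (st : Fin 4 → G) {ν : Measure ℝ≥0} {s : ℝ} (h : Wt ν s) {Q : (G → ℝ) → ℝ} (hQ : IsSOS Q)
    (T : ℕ) (F : G → ℝ) :
    ∫⁻ w, ENNReal.ofReal (Q (evo st 1 T w F)) ∂(env G ν) =
      ENNReal.ofReal (qv st 1 s Q T F) := lintegral_SOS st 1 h hQ T F

theorem targetP2 (hE1 : TargetE1) : TargetP2 := by
  intro M T _ ν s F h hD hM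
  have e1 : ∀ w : ℕ → Tor M → ℝ≥0, (Z (st M) 1 T w F - ∑ x, F x) ^ 2 =
      (fun F : Tor M → ℝ => (∑ x, F x) ^ 2) (evo (st M) 1 T w F - (step (st M) 1)^[T] F) := by
    intro w
    simp only [Pi.sub_apply, Finset.sum_sub_distrib, sum_iterate_step]
    rfl
  simp_rw [e1]
  rw [lintegral_centred (st M) h (isSOS_mass (Tor M)) T F, hE1 M T s F hM]
  apply ENNReal.ofReal_le_ofReal
  simp only [sum_iterate_step]
  have e2 : (∑ x, F x) ^ 2 + s * ∑ j ∈ Finset.Icc 1 T, Phi s (T - j) *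
      Pool.Agent.H95.QC.sq ((step (st M) 1)^[j] F) - (∑ x, F x) ^ 2 =
      s * ∑ j ∈ Finset.Icc 1 T, Phi s (T - j) *
      Pool.Agent.H95.QC.sq ((step (st M) 1)^[j] F) := by ring
  rw [e2, En, div_mul_eq_mul_div, mul_div_assoc, Finset.sum_div]
  refine mul_le_mul_of_nonneg_left ?_ h.nonneg
  refine Finset.sum_le_sum (fun j hj => ?_)
  have h1 : Phi s (T - j) ≤ 1 / (1 - s * Rn T) := by
    have h2 : 1 - s * Rn T ≤ 1 - s * Rn (T - j) := D_anti h.nonneg (Nat.sub_le T j)
    refine (Phi_le h.nonneg (lt_of_lt_of_le hD h2)).trans ?_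
    exact one_div_le_one_div_of_le hD h2
  calc Phi s (T - j) * Pool.Agent.H95.QC.sq ((step (st M) 1)^[j] F)
      ≤ 1 / (1 - s * Rn T) * Pool.Agent.H95.QC.sq ((step (st M) 1)^[j] F) :=
        mul_le_mul_of_nonneg_right h1 (sq_nonneg' _)
    _ = _ := by ring

lemma nrm4_nonneg {M : ℕ} (x : Tor M) : 0 ≤ nrm4 x := by unfold nrm4; positivity

lemma iter_step_nonneg {G : Type*} [Fintype G] [DecidableEq G] [AddCommGroup G]
    (st : Fin 4 → G) (n : ℕ) {f : G → ℝ} (hf : ∀ x, 0 ≤ f x) (x : G) :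
    0 ≤ (step st 1)^[n] f x := by
  induction n generalizing x with
  | zero => exact hf x
  | succ n ih =>
    rw [Function.iterate_succ_apply']
    exact step_nonneg st 1 one_nonneg' ih x

theorem targetP3 : TargetP3 := by
  intro M T _ ν s μ h hμ hμ1
  have hprob := h.prob
  have hint : ∀ x, Integrable (fun w => evo (st M) 1 T w μ x * nrm4 x) (env (Tor M) ν) := fun x =>
    (((targetE5 (Tor M) (st M) 1 ν s h T μ).1 x).1).mul_const _
  have h0 : ∀ w : ℕ → Tor M → ℝ≥0, 0 ≤ ∑ x, evo (st M) 1 T w μ x * nrm4 x := fun w =>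
    Finset.sum_nonneg (fun x _ => mul_nonneg (evo_nonneg _ _ one_nonneg' T w hμ x) (nrm4_nonneg x))
  rw [← ofReal_integral_eq_lintegral_ofReal (integrable_finsetSum _ (fun x _ => hint x))
    (ae_of_all _ h0)]
  apply ENNReal.ofReal_le_ofReal
  rw [integral_finsetSum _ (fun x _ => hint x)]
  have e1 : ∀ x, ∫ w, evo (st M) 1 T w μ x * nrm4 x ∂(env (Tor M) ν) =
      (step (st M) 1)^[T] μ x * nrm4 x := fun x => by
    rw [integral_mul_const, ((targetE5 (Tor M) (st M) 1 ν s h T μ).1 x).2]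
  simp_rw [e1]
  have h3 := Pool.Agent.H94.QC.targetK3 M T μ hμ
  rw [hμ1, mul_one] at h3
  exact h3

theorem targetP1 (hK0 : TargetK0) (hE2 : TargetE2) (hE3 : TargetE3) : TargetP1 := by
  intro r
  obtain ⟨C, hC, hC3⟩ := hE3 r
  refine ⟨r / 3 + C, by positivity, ?_⟩
  intro M T T' _ ν s μ h hs hsD hT hT' hM hμ hμ1
  have hD : 0 < 1 - s * Rn T := lt_of_lt_of_le hs hsD
  have hsd0 : 0 ≤ s / (1 - s * Rn T) := (div_pos hs hD).le
  have hsd1 : s / (1 - s * Rn T) ≤ 1 := (div_le_one hD).2 hsD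
  have habs : ∑ x, |μ x| = 1 := by
    rw [← hμ1]; exact Finset.sum_congr rfl (fun x _ => abs_of_nonneg (hμ x))
  have hv : ∀ j, 2 * j < M → Pool.Agent.H95.QC.sq ((step (st M) 1)^[j] μ) ≤ uZ j := by
    intro j hj
    have := targetE4 M j μ hj
    rwa [habs, one_pow, mul_one] at this
  have hr : (0 : ℝ) ≤ r := Nat.cast_nonneg r
  have hEn : 0 ≤ En M T μ := En_nonneg M T μ
  -- the convolution
  have hconv : s * ∑ j ∈ Finset.Icc 1 T, Ken s T' (T - j) *
      Pool.Agent.H95.QC.sq ((step (st M) 1)^[j] μ) ≤ C * (s / (1 - s * Rn T)) * (1 + En M T μ) := by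
    refine hC3 s T T' (fun j => Pool.Agent.H95.QC.sq ((step (st M) 1)^[j] μ)) hs hsD hT hT' ?_
    intro j _ hj2
    exact ⟨sq_nonneg' _, hv j (by omega)⟩
  have hqv := hE2 M T T' s μ hM
  constructor
  · rw [lintegral_centred (st M) h (isSOS_En M T') T μ]
    apply ENNReal.ofReal_le_ofReal
    rw [hqv]
    have : 0 ≤ r / 3 * (s / (1 - s * Rn T)) * (1 + En M T μ) := by positivity
    nlinarith
  · rw [lintegral_plain (st M) h (isSOS_En M T') T μ]
    apply ENNReal.ofReal_le_ofReal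
    rw [hqv]
    have h1 : En M T' ((step (st M) 1)^[T] μ) ≤ r / 3 := by
      unfold En
      have h2 : ∀ n ∈ Finset.Icc 1 T', Pool.Agent.H95.QC.sq
          ((step (st M) 1)^[n] ((step (st M) 1)^[T] μ)) ≤ 1 / (3 * (T : ℝ)) := by
        intro n hn
        rw [Finset.mem_Icc] at hn
        rw [← Function.iterate_add_apply]
        refine (hv (n + T) (by omega)).trans ?_
        refine ((hK0.2 (n + T) (by omega)).2).trans ?_
        apply one_div_le_one_div_of_le
        · have : (1 : ℝ) ≤ T := by exact_mod_cast hT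
          positivity
        · push_cast
          have : (0 : ℝ) ≤ n := Nat.cast_nonneg n
          linarith
      refine (Finset.sum_le_sum h2).trans ?_
      rw [Finset.sum_const, Nat.card_Icc, Nat.add_sub_cancel, nsmul_eq_mul]
      have h3 : (T' : ℝ) ≤ r * T := by exact_mod_cast hT'
      have h4 : (1 : ℝ) ≤ T := by exact_mod_cast hT
      rw [mul_one_div, div_le_div_iff₀ (by positivity) (by norm_num)]
      nlinarith
    have h5 : C * (s / (1 - s * Rn T)) * (1 + En M T μ) ≤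
        C * (1 + s / (1 - s * Rn T) * En M T μ) := by
      have : C * (s / (1 - s * Rn T)) * (1 + En M T μ) =
        C * (s / (1 - s * Rn T) + s / (1 - s * Rn T) * En M T μ) := by ring
      rw [this]
      exact mul_le_mul_of_nonneg_left (by linarith) hC.le
    have h6 : 0 ≤ r / 3 * (s / (1 - s * Rn T) * En M T μ) := by positivity
    nlinarith

end Pool.Agent.H42.QC
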